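import Mathlib

set_option autoImplicit false
open Filter Topology

namespace Pool.Agent.Results.MP_3b2c1c_al.No

/-- The families that are trivial at `U`-most coordinates. -/
def nul {ι : Type} (G : ι → Type) [∀ i, Group (G i)] (U : Ultrafilter ι) : Subgroup (∀ i, G i) where
  carrier := {g | ∀ᶠ i in (U : Filter ι), g i = 1}
  one_mem' := Eventually.of_forall fun _ => rfl
  mul_mem' := fun h k => (h.and k).mono fun i q => by simp [q.1, q.2]
  inv_mem' := fun h => h.mono fun i q => by simp [q]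
instance {ι : Type} (G : ι → Type) [∀ i, Group (G i)] (U : Ultrafilter ι) : (nul G U).Normal :=
  ⟨fun _ h _ => h.mono fun i q => by simp [q]⟩

/-- The smallest extension-closed quasivariety containing `ℤ`. -/
inductive Q : (G : Type) → [Group G] → Prop
  | int : Q (Multiplicative ℤ)
  | triv : Q Unit
  | iso {G H : Type} [Group G] [Group H] : G ≃* H → Q G → Q H
  | sub {G : Type} [Group G] (H : Subgroup G) : Q G → Q H
  | prod {ι : Type} (G : ι → Type) [∀ i, Group (G i)] : (∀ i, Q (G i)) → Q (∀ i, G i)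
  | ultra {ι : Type} (G : ι → Type) [∀ i, Group (G i)] (U : Ultrafilter ι) :
      (∀ i, Q (G i)) → Q ((∀ i, G i) ⧸ nul G U)
  | ext {G : Type} [Group G] (N : Subgroup G) [N.Normal] : Q N → Q (G ⧸ N) → Q G

def LocInd (G : Type) [Group G] : Prop :=
  ∀ H : Subgroup G, H ≠ ⊥ → H.FG → ∃ φ : H →* Multiplicative ℤ, Function.Surjective φ

def R {G : Type} [Group G] (a b : G) : Prop :=
  Commute (a * b⁻¹) (a⁻¹ * b * a) ∧ Commute (a * b⁻¹) (a⁻¹ * (a⁻¹ * b * a) * a)
lemma R.map {G H : Type} [Group G] [Group H] (f : G →* H) {a b : G} (h : R a b) : R (f a) (f b) :=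
  ⟨by simpa using h.1.map f, by simpa using h.2.map f⟩

def x {G : Type} [Group G] (a b : G) : ℕ → G
  | 0 => a
  | n + 1 => (a ^ n)⁻¹ * b * a ^ n

lemma rel {G : Type} [Group G] {a b : G} (h : R a b) {i j : ℕ} (hij : i < j) :
    x a b j * x a b i = x a b i * x a b (j + 1) := by
  have c : ∀ (n : ℕ) {u v : G}, Commute u v → Commute ((a ^ n)⁻¹ * u * a ^ n) ((a ^ n)⁻¹ * v * a ^ n) :=
    fun n u v k => by simpa only [MulAut.conj_apply, inv_inv] using k.map (MulAut.conj (a ^ n)⁻¹)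
  have s : ∀ n m, (a ^ n)⁻¹ * x a b (m + 1) * a ^ n = x a b (m + n + 1) := fun n m => by simp only [x]; group
  have e : ∀ n m, Commute (a * b⁻¹) (x a b (m + 1)) →
      x a b (m + n + 1) * x a b (n + 1) = x a b (n + 1) * x a b (m + n + 1 + 1) := fun n m k => by
    have := (c n k).eq
    rw [s] at this
    calc _ = x a b (n + 1) * a⁻¹ * ((a ^ n)⁻¹ * (a * b⁻¹) * a ^ n * x a b (m + n + 1)) * x a b (n + 1) := by
          simp only [x]; group
      _ = _ := by rw [this]; simp only [x]; group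
  have k : ∀ m, Commute (a * b⁻¹) (x a b (m + 2)) ∧ Commute (a * b⁻¹) (x a b (m + 3)) := fun m => by
    induction m with
    | zero => exact ⟨by simpa [x] using h.1, by simpa [x, pow_two, mul_assoc] using h.2⟩
    | succ m ih =>
      refine ⟨ih.2, ?_⟩
      have := e (m + 1) 1 (by simpa [x] using h.1)
      rw [show x a b (m + 1 + 3) = (x a b (m + 2))⁻¹ * x a b (m + 3) * x a b (m + 2) by
        rw [mul_assoc, eq_inv_mul_iff_mul_eq]; simpa [add_comm, add_left_comm, add_assoc] using this.symm]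
      exact (ih.1.inv_right.mul_right ih.2).mul_right ih.1
  obtain ⟨m, rfl⟩ := Nat.exists_eq_add_of_lt hij
  rcases i with _ | n
  · simp only [x]; group
  · simpa [add_comm, add_left_comm, add_assoc] using e n (m + 1) (k m).1

lemma key {G : Type} [Group G] {X : ℕ → G} (h : ∀ i j, i < j → X j * X i = X i * X (j + 1)) :
    R (X 1 * (X 2)⁻¹) (X 2 * X 2 * (X 3)⁻¹ * (X 2)⁻¹) ∧
      (Commute (X 1 * (X 2)⁻¹) (X 2 * X 2 * (X 3)⁻¹ * (X 2)⁻¹) → X 1 = X 2) := by
  have r1 : ∀ i j z, i < j → X j * (X i * z) = X i * (X (j + 1) * z) := fun i j z q => by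
    rw [← mul_assoc, h i j q, mul_assoc]
  have r2 : ∀ i j z, i < j → (X j)⁻¹ * (X i * z) = X i * ((X (j + 1))⁻¹ * z) := fun i j z q => by
    rw [inv_mul_eq_iff_eq_mul, r1 i j _ q, mul_inv_cancel_left]
  have r3 : ∀ i j z, i < j → (X i)⁻¹ * (X j * z) = X (j + 1) * ((X i)⁻¹ * z) := fun i j z q => by
    rw [inv_mul_eq_iff_eq_mul, ← r1 i j _ q, mul_inv_cancel_left]
  have r4 : ∀ i j z, i < j → (X i)⁻¹ * ((X j)⁻¹ * z) = (X (j + 1))⁻¹ * ((X i)⁻¹ * z) := fun i j z q => by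
    rw [inv_mul_eq_iff_eq_mul, ← r2 i j _ q, mul_inv_cancel_left]
  have e : ∀ {u v : G}, (∀ z, u * v⁻¹ * z = z) → u = v := fun q => by simpa [mul_inv_eq_one] using q 1
  refine ⟨⟨e fun z => ?_, e fun z => ?_⟩, fun q => ?_⟩
  rotate_left 2
  · have : X 2 * X 2 * (X 3)⁻¹ * (X 2)⁻¹ * ((X 1 * (X 2)⁻¹)⁻¹ * (X 2 * X 2 * (X 3)⁻¹ * (X 2)⁻¹) * (X 1 * (X 2)⁻¹))⁻¹ =
        (X 0 * (X 3)⁻¹ * (X 2)⁻¹)⁻¹ * (X 1 * (X 2)⁻¹) * (X 0 * (X 3)⁻¹ * (X 2)⁻¹) := e fun z => by
      simp (disch := omega) only [mul_assoc, mul_inv_rev, inv_inv, r1, r2, r3, r4, Nat.reduceAdd,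
        mul_inv_cancel_left, inv_mul_cancel_left]
    rw [mul_assoc _⁻¹, ← q.eq, inv_mul_cancel_left, mul_inv_cancel, eq_comm, mul_assoc, inv_mul_eq_one,
      right_eq_mul, mul_inv_eq_one] at this
    exact this
  all_goals simp (disch := omega) only [mul_assoc, mul_inv_rev, inv_inv, r1, r2, r3, r4, Nat.reduceAdd,
        mul_inv_cancel_left, inv_mul_cancel_left]

lemma qi {G : Type} [Group G] (h : Q G) : ∀ a b : G, R a b → Commute a b := by
  induction h with
  | int => exact fun a b _ => .all a b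
  | triv => exact fun a b _ => .all a b
  | iso e _ ih => exact fun a b h => by simpa using (ih _ _ (h.map e.symm.toMonoidHom)).map e
  | sub H _ ih => exact fun a b h => Subtype.ext (ih _ _ (h.map H.subtype))
  | prod G _ ih => exact fun a b h => funext fun i => ih i _ _ (h.map (Pi.evalMonoidHom G i))
  | ultra G U _ ih =>
    rintro ⟨a⟩ ⟨b⟩ ⟨h1, h2⟩
    exact QuotientGroup.eq.2 (((QuotientGroup.eq.1 h1).and (QuotientGroup.eq.1 h2)).mono fun i q =>
      inv_mul_eq_one.2 (ih i _ _ ⟨inv_mul_eq_one.1 q.1, inv_mul_eq_one.1 q.2⟩))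
  | ext N _ _ ih1 ih2 =>
    intro a b h
    obtain ⟨k1, k2⟩ := key (X := x a b) fun i j => rel h
    have c := ih2 _ _ (h.map (QuotientGroup.mk' N))
    have e : ∀ n, QuotientGroup.mk' N (x a b (n + 1)) = QuotientGroup.mk' N b := fun n => by
      simp only [x, map_mul, map_inv, map_pow]
      rw [mul_assoc, ← (c.pow_left n).eq, inv_mul_cancel_left]
    have m : ∀ g, QuotientGroup.mk' N g = 1 → g ∈ N := fun g => (QuotientGroup.eq_one_iff g).1
    have := k2 (congrArg Subtype.val (ih1 ⟨_, m _ (by simp only [map_mul, map_inv, e]; group)⟩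
      ⟨_, m _ (by simp only [map_mul, map_inv, e]; group)⟩ ⟨Subtype.ext k1.1, Subtype.ext k1.2⟩))
    simpa [x, mul_assoc, eq_inv_mul_iff_mul_eq, commute_iff_eq] using this

lemma td (h : ℝ ≃o ℝ) (p : ℝ) : Tendsto h (𝓝[>] p) (𝓝[>] h p) :=
  tendsto_nhdsWithin_of_tendsto_nhds_of_eventually_within _ (h.continuous.continuousAt.tendsto.mono_left
    nhdsWithin_le_nhds) (eventually_mem_nhdsWithin.mono fun _ ht => h.strictMono ht)
def Sl (g : ℝ → ℝ) (p : ℝ) (k : ℤ) : Prop := ∀ᶠ t in 𝓝[>] p, g t = g p + 2 ^ k * (t - p)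
lemma Sl.mul {g h : ℝ ≃o ℝ} {p : ℝ} {k j : ℤ} (h1 : Sl g (h p) k) (h2 : Sl h p j) : Sl ⇑(g * h) p (k + j) :=
  (((td h p).eventually h1).and h2).mono fun t q => by
    simp only [RelIso.coe_mul, Function.comp, zpow_add₀ (two_ne_zero (α := ℝ))]
    rw [q.1, q.2]; ring
def PL : Subgroup (ℝ ≃o ℝ) where
  carrier := {g | (∀ t ≤ 0, g t = t) ∧ ∀ p, ∃ k, Sl g p k}
  one_mem' := ⟨fun _ _ => rfl, fun p => ⟨0, .of_forall fun t => by simp⟩⟩
  mul_mem' := fun {g h} a b => ⟨fun t q => by simp [a.1 t q, b.1 t q], fun p =>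
    (a.2 (h p)).elim fun _ c => (b.2 p).elim fun _ d => ⟨_, c.mul d⟩⟩
  inv_mem' := fun {g} a => ⟨fun t q => g.injective (by simp [a.1 t q]), fun p => (a.2 (g⁻¹ p)).elim fun k c =>
    ⟨-k, ((td g⁻¹ p).eventually c).mono fun t q => by
      simp only [RelIso.apply_inv_self] at q
      rw [q, zpow_neg]; field_simp; simp [← q]; linarith⟩⟩

lemma mp {g : ℝ ≃o ℝ} : g ∈ PL ↔ (∀ t ≤ 0, g t = t) ∧ ∀ p, ∃ k, Sl g p k := .rfl

lemma li : LocInd PL := fun H h1 h2 => by
  obtain ⟨S, rfl, s1⟩ := (Subgroup.fg_iff _).1 h2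
  set A := {p : ℝ | ∀ s ∈ S, ∀ t ≤ p, s.1 t = t}
  have a0 : (0 : ℝ) ∈ A := fun s _ => (mp.1 s.2).1
  have a1 : BddAbove A := by
    by_contra k
    refine h1 (Subgroup.closure_eq_bot_iff.2 fun s hs => Subtype.ext (RelIso.ext fun t => ?_))
    obtain ⟨p, p1, p2⟩ := not_bddAbove_iff.1 k t
    exact p1 s hs t p2.le
  have a2 : ∀ s ∈ S, ∀ t < sSup A, s.1 t = t := fun s hs t ht =>
    let ⟨p, p1, p2⟩ := exists_lt_of_lt_csSup ⟨0, a0⟩ ht
    p1 s hs t p2.le
  have a3 : ∀ s ∈ S, s.1 (sSup A) = sSup A := fun s hs => by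
    refine (le_of_forall_lt fun t ht => ?_).antisymm (le_of_forall_lt fun t ht => a2 s hs t ht ▸ s.1.strictMono ht)
    obtain ⟨u, rfl⟩ := s.1.surjective t
    rw [a2 s hs u (s.1.lt_iff_lt.1 ht)]; exact s.1.lt_iff_lt.1 ht
  have a4 : ∀ g ∈ Subgroup.closure S, g.1 (sSup A) = sSup A := fun g hg => by
    induction hg using Subgroup.closure_induction with
    | mem s hs => exact a3 s hs
    | one => rfl
    | mul a b _ _ ha hb => simp [ha, hb]
    | inv a _ ha => exact a.1.injective (by simp [ha])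
  choose k hk using fun g : Subgroup.closure S => (mp.1 g.1.2).2 (sSup A)
  let φ : Subgroup.closure S →* Multiplicative ℤ := .mk' (fun g => .ofAdd (k g)) fun a b => by
    obtain ⟨t, ⟨t1, t2⟩, t3⟩ := (((hk (a * b)).and (Sl.mul ((a4 _ b.2).symm ▸ hk a) (hk b))).and
      eventually_mem_nhdsWithin).exists
    exact zpow_right_injective₀ (a := (2 : ℝ)) (by norm_num) (by norm_num)
      (mul_right_cancel₀ (sub_pos.2 t3).ne' (add_left_cancel (t1.symm.trans t2)))
  have : Infinite φ.range := by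
    obtain ⟨s, hs⟩ : ∃ s, k s ≠ 0 := by
      by_contra! q
      obtain ⟨u, u1, u2⟩ := (nhdsGT_basis _).eventually_iff.1 ((eventually_all_finite s1).2 fun s hs =>
        (hk ⟨s, Subgroup.subset_closure hs⟩).mono fun t w => show s.1 t = t by simpa [q, a3 s hs] using w)
      obtain ⟨v, v1, v2⟩ := exists_between u1
      refine v1.not_ge (le_csSup a1 fun s hs t ht => ?_)
      rcases lt_trichotomy t (sSup A) with w | rfl | w
      exacts [a2 s hs t w, a3 s hs, u2 ⟨w, ht.trans_lt v2⟩ s hs]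
    exact .of_injective (fun n : ℤ => ⟨φ s ^ n, s ^ n, map_zpow _ _ _⟩) fun n m e => by
      simpa [φ, hs] using congrArg (fun g : φ.range => g.1.toAdd) e
  exact ⟨(intCyclicMulEquiv (G := φ.range)).symm.toMonoidHom.comp φ.rangeRestrict,
    (intCyclicMulEquiv (G := φ.range)).symm.surjective.comp φ.rangeRestrict_surjective⟩

noncomputable def f : ℝ ≃o ℝ := StrictMono.orderIsoOfRightInverse (fun t => max t (2 * t))
  (fun _ _ h => max_lt_max h (by linarith)) (fun t => min t (t / 2)) fun t => by grind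
noncomputable def g : ℝ ≃o ℝ := StrictMono.orderIsoOfRightInverse (fun t => max t (min (4 * t - 3) (2 * t)))
  (fun _ _ h => max_lt_max h (min_lt_min (by linarith) (by linarith))) (fun t => min t (max ((t + 3) / 4) (t / 2)))
  fun t => by grind
lemma fv (t : ℝ) : f t = max t (2 * t) := rfl
lemma gv (t : ℝ) : g t = max t (min (4 * t - 3) (2 * t)) := rfl
lemma fi (t : ℝ) : f⁻¹ t = min t (t / 2) := rfl
lemma gi (t : ℝ) : g⁻¹ t = min t (max ((t + 3) / 4) (t / 2)) := rfl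

theorem result : ∃ (G : Type) (_ : Group G), LocInd G ∧ ¬ Q G := by
  have hf : f ∈ PL := mp.2 ⟨fun t _ => by grind [fv], fun p => by
    rcases lt_or_ge p 0 with h | h
    · exact ⟨0, Eventually.mono (Ioo_mem_nhdsGT h) fun t q => by norm_num at q ⊢; grind [fv]⟩
    · exact ⟨1, eventually_mem_nhdsWithin.mono fun t q => by norm_num at q ⊢; grind [fv]⟩⟩
  have hg : g ∈ PL := mp.2 ⟨fun t _ => by grind [gv], fun p => by
    rcases lt_or_ge p 1 with h | h
    · exact ⟨0, Eventually.mono (Ioo_mem_nhdsGT h) fun t q => by norm_num at q ⊢; grind [gv]⟩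
    rcases lt_or_ge p (3 / 2) with k | k
    · exact ⟨2, Eventually.mono (Ioo_mem_nhdsGT k) fun t q => by norm_num at q ⊢; grind [gv]⟩
    · exact ⟨1, eventually_mem_nhdsWithin.mono fun t q => by norm_num at q ⊢; grind [gv]⟩⟩
  have c : ∀ u v : ℝ ≃o ℝ, (∀ t, 2 ≤ t → u t = t) → (∀ t ≤ 2, v t = t) → Commute u v := fun u v h k =>
    RelIso.ext fun t => by
      show u (v t) = v (u t)
      rcases le_total t 2 with q | q
      · rw [k t q, k _ (h 2 le_rfl ▸ u.monotone q)]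
      · rw [h t q, h _ (k 2 le_rfl ▸ v.monotone q)]
  refine ⟨PL, _, li, fun h => ?_⟩
  have := qi h ⟨f, hf⟩⁻¹ ⟨g, hg⟩⁻¹ ⟨Subtype.ext (c _ _ (fun t q => show f⁻¹ (g t) = t by grind [fi, gv])
    fun t q => show f (g⁻¹ (f⁻¹ t)) = t by grind [fv, gi, fi]), Subtype.ext (c _ _
      (fun t q => show f⁻¹ (g t) = t by grind [fi, gv]) fun t q => show f (f (g⁻¹ (f⁻¹ (f⁻¹ t)))) = t by
        grind [fv, gi, fi])⟩
  have : f⁻¹ (g⁻¹ 2) = g⁻¹ (f⁻¹ 2) := congrArg (fun u : PL => u.1 2) this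
  norm_num [fi, gi] at this

end Pool.Agent.Results.MP_3b2c1c_al.No
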